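import Pool.Agent.Helper27.NF.Stm
import Pool.Graph.R_seed8.H546R4.Image

/-!
# END: from `S_FALSE` to the statement for an algebra and a homomorphic image (helper67)
-/

set_option autoImplicit false
set_option linter.unusedVariables false
set_option linter.unusedSectionVars false

namespace Pool.Agent.Helper27.NF.End

open Pool.Agent.H546R4

section

variable {K A C : Type} [Field K]
  [NonUnitalRing A] [Module K A] [IsScalarTower K A A] [SMulCommClass K A A]
  [NonUnitalRing C] [Module K C] [IsScalarTower K C C] [SMulCommClass K C C]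

variable (K C) in
/-- the embedding -/
noncomputable abbrev II : C →ₙₐ[K] Unitization K C := Unitization.inrNonUnitalAlgHom K C

variable (K C) in
/-- the image of `C` in the unitization -/
noncomputable def AA : NonUnitalSubalgebra K (Unitization K C) := NonUnitalAlgHom.range (II K C)

theorem mem_AA (c : C) : II K C c ∈ AA K C := ⟨c, rfl⟩

theorem II_inj : Function.Injective (II K C) := Unitization.inr_injective

theorem foldl_eq (f : A →ₙₐ[K] C) (l : List A) : ∀ a : A,
    II K C (f (l.foldl (fun x y => x * y) a)) =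
      II K C (f a) * (l.map (fun b => II K C (f b))).prod := by
  induction l with
  | nil => intro a; rw [List.foldl_nil, List.map_nil, List.prod_nil, mul_one]
  | cons b l ih =>
    intro a
    rw [List.foldl_cons, ih, map_mul, map_mul, List.map_cons, List.prod_cons, mul_assoc]

theorem noFin (hfin : ∀ (n : ℕ) (p q : Fin n → C),
    (∃ S : Submodule K C, FiniteDimensional K S ∧ ∀ b : C, ∑ i, p i * b * q i ∈ S) →
    ∀ b : C, ∑ i, p i * b * q i = 0) : NoFin (AA K C) := by
  rintro n p q hpq ⟨S, hS, hb⟩ b hbA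
  have hp : ∀ i, ∃ c, II K C c = p i := fun i => (hpq i).1
  have hq : ∀ i, ∃ c, II K C c = q i := fun i => (hpq i).2
  choose p' hp' using hp
  choose q' hq' using hq
  obtain ⟨b', rfl⟩ := hbA
  have key : ∀ c : C, ∑ i, p i * II K C c * q i = II K C (∑ i, p' i * c * q' i) := by
    intro c
    rw [map_sum]
    refine Finset.sum_congr rfl fun i _ => ?_
    rw [map_mul, map_mul]
    exact congrArg₂ (fun x y => x * II K C c * y) (hp' i).symm (hq' i).symm
  have h := hfin n p' q' ⟨S.comap (II K C : C →ₗ[K] Unitization K C), ?_, ?_⟩ b'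
  · exact (key b').trans (by rw [h, map_zero])
  · have := hS
    exact FiniteDimensional.of_injective
      (LinearMap.codRestrict S ((II K C : C →ₗ[K] Unitization K C).comp
        (S.comap (II K C : C →ₗ[K] Unitization K C)).subtype) (fun x => x.2))
      (fun x y h => Subtype.ext (II_inj (congrArg Subtype.val h)))
  · intro c
    show II K C (∑ i, p' i * c * q' i) ∈ S
    rw [← key]
    exact hb _ (mem_AA c)

variable (K C) in
/-- the span of the products -/
noncomputable abbrev SPP : Submodule K (Unitization K C) :=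
  Submodule.span K {z : Unitization K C | ∃ u ∈ AA K C, ∃ v ∈ AA K C, z = u * v}

/-- the square of the image -/
noncomputable def SQ : NonUnitalSubalgebra K C where
  carrier := {c | II K C c ∈ SPP K C}
  add_mem' := by
    intro x y hx hy
    show II K C (x + y) ∈ SPP K C
    rw [map_add]
    exact Submodule.add_mem _ hx hy
  zero_mem' := by
    show II K C 0 ∈ SPP K C
    rw [map_zero]
    exact Submodule.zero_mem _
  mul_mem' := by
    intro x y _ _
    show II K C (x * y) ∈ SPP K C
    rw [map_mul]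
    exact Submodule.subset_span ⟨_, mem_AA x, _, mem_AA y, rfl⟩
  smul_mem' := by
    intro t x hx
    show II K C (t • x) ∈ SPP K C
    rw [map_smul]
    exact Submodule.smul_mem _ _ hx

theorem sq (hprop : ∀ B : NonUnitalSubalgebra K A, B ≠ ⊤ → Nilp B)
    (hA : ¬ Nilp (⊤ : NonUnitalSubalgebra K A)) (f : A →ₙₐ[K] C) (hf : Function.Surjective f) :
    ∀ a ∈ AA K C, a ∈ Submodule.span K {z : Unitization K C | ∃ u ∈ AA K C, ∃ v ∈ AA K C, z = u * v} := by
  rintro _ ⟨c, rfl⟩
  have h : (SQ (K := K) (C := C)).comap f = ⊤ := by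
    by_contra hne
    refine hA (nilp_of_sq _ ?_ (hprop _ hne))
    intro x y
    rw [NonUnitalSubalgebra.mem_comap, map_mul]
    show II K C (f x * f y) ∈ SPP K C
    rw [map_mul]
    exact Submodule.subset_span ⟨_, mem_AA _, _, mem_AA _, rfl⟩
  obtain ⟨a, rfl⟩ := hf c
  have h1 : a ∈ (SQ (K := K) (C := C)).comap f := by
    rw [h]
    exact NonUnitalAlgebra.mem_top
  exact h1

theorem nil (hprop : ∀ B : NonUnitalSubalgebra K A, B ≠ ⊤ → Nilp B) (f : A →ₙₐ[K] C)
    (hf : Function.Surjective f) (B : NonUnitalSubalgebra K (Unitization K C)) (hB : B ≤ AA K C)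
    (hne : B ≠ AA K C) :
    ∃ n : ℕ, ∀ l : List (Unitization K C), (∀ x ∈ l, x ∈ B) → l.length = n → l.prod = 0 := by
  classical
  have hne' : (B.comap (II K C)).comap f ≠ ⊤ := by
    intro h
    apply hne
    refine le_antisymm hB ?_
    rintro _ ⟨c, rfl⟩
    obtain ⟨a, rfl⟩ := hf c
    have h1 : a ∈ (B.comap (II K C)).comap f := by
      rw [h]
      exact NonUnitalAlgebra.mem_top
    exact h1
  obtain ⟨n, hn⟩ := hprop _ hne'
  have hex : ∀ x : Unitization K C, ∃ a : A, x ∈ B → II K C (f a) = x := by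
    intro x
    by_cases hx : x ∈ B
    · obtain ⟨c, hc⟩ := hB hx
      obtain ⟨a, rfl⟩ := hf c
      exact ⟨a, fun _ => hc⟩
    · exact ⟨0, fun h => absurd h hx⟩
  choose g hg using hex
  refine ⟨n + 1, ?_⟩
  intro l hl hlen
  match l, hlen with
  | x :: l, hlen =>
    have hx : x ∈ B := hl x List.mem_cons_self
    have hl' : ∀ y ∈ l, y ∈ B := fun y hy => hl y (List.mem_cons_of_mem _ hy)
    have h1 := hn (g x) (by
      show II K C (f (g x)) ∈ B
      rw [hg x hx]
      exact hx) (l.map g) (by
        intro y hy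
        rw [List.mem_map] at hy
        obtain ⟨z, hz, rfl⟩ := hy
        show II K C (f (g z)) ∈ B
        rw [hg z (hl' z hz)]
        exact hl' z hz) (by
        rw [List.length_map]
        simpa using hlen)
    have h2 := foldl_eq (K := K) f (l.map g) (g x)
    rw [h1, map_zero, map_zero, hg x hx, List.map_map] at h2
    have h3 : l.map ((fun b => II K C (f b)) ∘ g) = l := by
      have h4 : l.map ((fun b => II K C (f b)) ∘ g) = l.map id :=
        List.map_congr_left fun y hy => hg y (hl' y hy)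
      rw [h4, List.map_id]
    rw [h3] at h2
    rw [List.prod_cons]
    exact h2.symm

theorem nc [CharZero K] [Nontrivial C] (hdim : 1 < Module.rank K A)
    (hprop : ∀ B : NonUnitalSubalgebra K A, B ≠ ⊤ → Nilp B)
    (hA : ¬ Nilp (⊤ : NonUnitalSubalgebra K A)) (f : A →ₙₐ[K] C) (hf : Function.Surjective f) :
    ∃ a ∈ AA K C, ∃ b ∈ AA K C, a * b ≠ b * a := by
  by_contra h
  push Not at h
  have hcomm : ∀ x y : C, x * y = y * x := by
    intro x y
    have h1 := h _ (mem_AA x) _ (mem_AA y)
    rw [← map_mul, ← map_mul] at h1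
    exact II_inj h1
  let inst : NonUnitalCommRing C := { ‹NonUnitalRing C› with mul_comm := hcomm }
  exact hA (image_thm hdim hprop f hf)

theorem lin_zero (hsq : ∀ a ∈ AA K C, a ∈ Submodule.span K {z : Unitization K C |
    ∃ u ∈ AA K C, ∃ v ∈ AA K C, z = u * v}) (g : Unitization K C →ₗ[K] Unitization K C)
    (hg : ∀ u ∈ AA K C, ∀ v ∈ AA K C, g (u * v) = 0) : ∀ a ∈ AA K C, g a = 0 := by
  intro a ha
  have h : Submodule.span K {z : Unitization K C | ∃ u ∈ AA K C, ∃ v ∈ AA K C, z = u * v} ≤
      LinearMap.ker g := by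
    rw [Submodule.span_le]
    rintro _ ⟨u, hu, v, hv, rfl⟩
    exact hg u hu v hv
  exact h (hsq a ha)

theorem exw [Nontrivial C] (hsq : ∀ a ∈ AA K C, a ∈ Submodule.span K {z : Unitization K C |
    ∃ u ∈ AA K C, ∃ v ∈ AA K C, z = u * v}) : ∃ w ∈ AA K C, ¬ ZZ (AA K C) 1 w := by
  by_contra h
  push Not at h
  have h4 : ∀ x ∈ AA K C, ∀ y ∈ AA K C, ∀ z ∈ AA K C, ∀ t ∈ AA K C, x * y * z * t = 0 := by
    intro x hx y hy z hz t ht
    have h1 := h z hz x hx y hy t ht
    rwa [mul_one] at h1
  have h3 : ∀ t ∈ AA K C, ∀ z ∈ AA K C, ∀ x ∈ AA K C, x * z * t = 0 := by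
    intro t ht z hz
    refine lin_zero hsq ((LinearMap.mulRight K t).comp (LinearMap.mulRight K z)) ?_
    intro u hu v hv
    exact h4 u hu v hv z hz t ht
  have h2 : ∀ t ∈ AA K C, ∀ x ∈ AA K C, x * t = 0 := by
    intro t ht
    refine lin_zero hsq (LinearMap.mulRight K t) ?_
    intro u hu v hv
    exact h3 t ht v hv u hu
  have h1 : ∀ x ∈ AA K C, x = 0 := by
    refine lin_zero hsq LinearMap.id ?_
    intro u hu v hv
    exact h2 v hv u hu
  obtain ⟨c, hc⟩ := exists_ne (0 : C)
  apply hc
  apply II_inj (K := K)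
  rw [map_zero]
  exact h1 _ (mem_AA c)

end

theorem main : S_FALSE → S_END := by
  intro hFalse K A C _ _ _ _ _ _ _ _ _ _ _ hdim hprop f hf hfin
  by_contra hcon
  have hA : ¬ Nilp (⊤ : NonUnitalSubalgebra K A) := by
    rintro ⟨n, hn⟩
    exact hcon ⟨n, fun a l hl => hn a NonUnitalAlgebra.mem_top l
      (fun x _ => NonUnitalAlgebra.mem_top) hl⟩
  have hprop' : ∀ B : NonUnitalSubalgebra K A, B ≠ ⊤ → Nilp B := hprop
  have hsq := sq hprop' hA f hf
  obtain ⟨w, hw, hw'⟩ := exw hsq
  refine hFalse K (Unitization K C) (AA K C) (noFin hfin) ⟨hsq, fun B hB hne => nil hprop' f hf B hB hne,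
    nc hdim hprop' hA f hf⟩ w hw ⟨fun y hy => absurd hy List.not_mem_nil, ?_⟩
  intro v hv
  have h0 : {y : Unitization K C | y ∈ ([] : List (Unitization K C))} = ∅ := by
    ext y
    simp
  rw [h0, NonUnitalAlgebra.adjoin_empty] at hv
  rw [NonUnitalAlgebra.mem_bot.1 hv, sub_zero, List.prod_nil]
  exact hw'

end Pool.Agent.Helper27.NF.End
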