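import Pool.Agent.Helper27.NF.Stm
import Pool.Graph.R_pool_sql_team_seeded_b677cdb8.E8helper9.NL.Rel

/-!
# FG: finitely generated ideals are nilpotent (helper35 for helper27)
-/

set_option autoImplicit false

namespace Pool.Agent.Helper27.NF.FG

open Pool.Agent.E8helper9.NL

variable {K R : Type} [Field K] [Ring R] [Algebra K R]

theorem isId_bot (P : Submodule K R) : IsId P (⊥ : Submodule K R) where
  le := bot_le
  left := by rw [Submodule.mul_bot]
  right := by rw [Submodule.bot_mul]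

/-- the sum of the nilpotent ideals -/
def NN (P : Submodule K R) : Submodule K R where
  carrier := {s | ∃ V : Submodule K R, IsId P V ∧ (∃ n : ℕ, V ^ n ≤ ⊥) ∧ s ∈ V}
  add_mem' := by
    rintro x y ⟨V, hV, ⟨n, hn⟩, hx⟩ ⟨W, hW, ⟨m, hm⟩, hy⟩
    exact ⟨V ⊔ W, hV.sup hW, ⟨n * m, nil_sup (isId_bot P) hV hW hn hm⟩,
      Submodule.add_mem _ (Submodule.mem_sup_left hx) (Submodule.mem_sup_right hy)⟩
  zero_mem' := ⟨⊥, isId_bot P, ⟨1, by rw [pow_one]⟩, Submodule.zero_mem _⟩
  smul_mem' := by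
    rintro c x ⟨V, hV, hn, hx⟩
    exact ⟨V, hV, hn, V.smul_mem c hx⟩

theorem NN_left {P : Submodule K R} {a x : R} (ha : a ∈ P) (hx : x ∈ NN P) : a * x ∈ NN P := by
  obtain ⟨V, hV, hn, hxV⟩ := hx
  exact ⟨V, hV, hn, hV.left (Submodule.mul_mem_mul ha hxV)⟩

theorem NN_right {P : Submodule K R} {a x : R} (ha : a ∈ P) (hx : x ∈ NN P) : x * a ∈ NN P := by
  obtain ⟨V, hV, hn, hxV⟩ := hx
  exact ⟨V, hV, hn, hV.right (Submodule.mul_mem_mul hxV ha)⟩

theorem pow_le_bot {V : Submodule K R} {n : ℕ}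
    (h : ∀ l : List R, (∀ x ∈ l, x ∈ V) → l.length = n → l.prod = 0) : V ^ n ≤ ⊥ := by
  rw [Submodule.pow_eq_span_pow_set, Submodule.span_le]
  intro x hx
  obtain ⟨f, rfl⟩ := Set.mem_pow.1 hx
  refine (Submodule.mem_bot K).2 (h _ ?_ List.length_ofFn)
  intro y hy
  rw [List.mem_ofFn] at hy
  obtain ⟨i, rfl⟩ := hy
  exact (f i).2

theorem prod_mem {V : Submodule K R} : ∀ l : List R, (∀ x ∈ l, x ∈ V) → l.prod ∈ V ^ l.length
  | [], _ => by
    rw [List.prod_nil, List.length_nil, pow_zero]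
    exact Submodule.one_le.1 le_rfl
  | a :: l, h => by
    rw [List.prod_cons, List.length_cons, pow_succ']
    exact Submodule.mul_mem_mul (h a (by simp)) (prod_mem l fun x hx => h x (by simp [hx]))

theorem stepA {A : NonUnitalSubalgebra K R} (hA : Minl A) {t : R} (ht : t ∈ A)
    (htN : t ∉ NN A.toSubmodule) : ∀ a ∈ A, ∃ k : K, ∃ c ∈ A, a = k • t + c * t := by
  let L : NonUnitalSubalgebra K R :=
    { carrier := {z | ∃ k : K, ∃ c ∈ A, z = k • t + c * t}
      add_mem' := by
        rintro _ _ ⟨k, c, hc, rfl⟩ ⟨k', c', hc', rfl⟩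
        exact ⟨k + k', c + c', A.add_mem hc hc', by rw [add_smul, add_mul]; abel⟩
      zero_mem' := ⟨0, 0, A.zero_mem, by simp⟩
      mul_mem' := by
        rintro _ _ ⟨k, c, hc, rfl⟩ ⟨k', c', hc', rfl⟩
        refine ⟨0, k' • (k • t + c * t) + (k • t + c * t) * c', ?_, ?_⟩
        · have h1 : k • t + c * t ∈ A := A.add_mem (A.smul_mem k ht) (A.mul_mem hc ht)
          exact A.add_mem (A.smul_mem k' h1) (A.mul_mem h1 hc')
        · rw [zero_smul, zero_add, mul_add (k • t + c * t), mul_smul_comm, ← mul_assoc,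
            ← smul_mul_assoc, ← add_mul]
      smul_mem' := by
        rintro r _ ⟨k, c, hc, rfl⟩
        exact ⟨r * k, r • c, A.smul_mem r hc, by rw [smul_add, mul_smul, smul_mul_assoc]⟩ }
  have hLA : L ≤ A := by
    rintro _ ⟨k, c, hc, rfl⟩
    exact A.add_mem (A.smul_mem k ht) (A.mul_mem hc ht)
  have htL : t ∈ L := ⟨1, 0, A.zero_mem, by simp⟩
  have hAL : ∀ a ∈ A, ∀ z ∈ L, a * z ∈ L := by
    rintro a ha _ ⟨k, c, hc, rfl⟩
    exact ⟨0, k • a + a * c, A.add_mem (A.smul_mem k ha) (A.mul_mem ha hc), by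
      rw [zero_smul, zero_add, mul_add, add_mul, mul_smul_comm, smul_mul_assoc, mul_assoc]⟩
  by_cases hL : L = A
  · intro a ha
    have ha' : a ∈ L := by rw [hL]; exact ha
    obtain ⟨k, c, hc, h⟩ := ha'
    exact ⟨k, c, hc, h⟩
  · exfalso
    obtain ⟨n, hn⟩ := hA.nil L hLA hL
    have hLn : L.toSubmodule ^ n ≤ ⊥ := pow_le_bot fun l hl hlen => hn l hl hlen
    apply htN
    have hPP : A.toSubmodule * A.toSubmodule ≤ A.toSubmodule :=
      Submodule.mul_le.2 fun x hx y hy => A.mul_mem hx hy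
    have hPQ : A.toSubmodule * L.toSubmodule ≤ L.toSubmodule :=
      Submodule.mul_le.2 fun x hx y hy => hAL x hx y hy
    have hQP : L.toSubmodule ≤ A.toSubmodule := fun x hx => hLA hx
    have htQ : t ∈ L.toSubmodule := htL
    generalize A.toSubmodule = P at *
    generalize L.toSubmodule = Q at *
    have key : ∀ j : ℕ, (Q ⊔ Q * P) ^ j ≤ Q ^ j ⊔ Q ^ j * P := by
      intro j
      induction j with
      | zero => rw [pow_zero, pow_zero]; exact le_sup_left
      | succ j ih =>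
        rw [pow_succ (Q ⊔ Q * P)]
        refine le_trans (mul_le_mul' ih le_rfl) ?_
        rw [Submodule.sup_mul, Submodule.mul_sup, Submodule.mul_sup]
        refine sup_le (sup_le ?_ ?_) (sup_le ?_ ?_)
        · rw [← pow_succ]; exact le_sup_left
        · rw [← mul_assoc, ← pow_succ]; exact le_sup_right
        · rw [mul_assoc, pow_succ]
          exact le_trans (mul_le_mul' le_rfl hPQ) le_sup_left
        · rw [mul_assoc, ← mul_assoc P Q P, pow_succ, mul_assoc (Q ^ j) Q P]
          exact le_trans (mul_le_mul' le_rfl (mul_le_mul' hPQ le_rfl)) le_sup_right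
    refine ⟨Q ⊔ Q * P, ⟨sup_le hQP (le_trans (mul_le_mul' hQP le_rfl) hPP), ?_, ?_⟩, ⟨n, ?_⟩,
      Submodule.mem_sup_left htQ⟩
    · rw [Submodule.mul_sup, ← mul_assoc]
      exact sup_le_sup hPQ (mul_le_mul' hPQ le_rfl)
    · rw [Submodule.sup_mul, mul_assoc]
      exact sup_le le_sup_right (le_trans (mul_le_mul' le_rfl hPP) le_sup_right)
    · refine le_trans (key n) ?_
      have h0 : Q ^ n = ⊥ := le_bot_iff.1 hLn
      rw [h0, Submodule.bot_mul, sup_bot_eq]

theorem stepB {A : NonUnitalSubalgebra K R} (hA : Minl A) {t : R} (ht : t ∈ A)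
    (htN : t ∉ NN A.toSubmodule) : ∀ a ∈ A, ∃ c ∈ A, a = c * t := by
  by_cases hc : ∀ c ∈ A, c * t ∈ NN A.toSubmodule
  · exfalso
    have hA1 := stepA hA ht htN
    apply htN
    have h2 : Submodule.span K {z : R | ∃ u ∈ A, ∃ v ∈ A, z = u * v} ≤ NN A.toSubmodule := by
      rw [Submodule.span_le]
      rintro _ ⟨u, hu, v, hv, rfl⟩
      obtain ⟨k, c, hcA, rfl⟩ := hA1 v hv
      show u * (k • t + c * t) ∈ NN A.toSubmodule
      rw [mul_add, mul_smul_comm, ← mul_assoc]
      exact Submodule.add_mem _ (Submodule.smul_mem _ k (hc u hu)) (hc _ (A.mul_mem hu hcA))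
    exact h2 (hA.sq t ht)
  · push Not at hc
    obtain ⟨c, hcA, hcN⟩ := hc
    intro a ha
    obtain ⟨k, d, hd, h⟩ := stepA hA (A.mul_mem hcA ht) hcN a ha
    exact ⟨k • c + d * c, A.add_mem (A.smul_mem k hcA) (A.mul_mem hd hcA), by
      rw [h, add_mul, smul_mul_assoc, mul_assoc]⟩

theorem all_mem {A : NonUnitalSubalgebra K R} (hA : Minl A) {t : R} (ht : t ∈ A) :
    t ∈ NN A.toSubmodule := by
  by_contra htN
  have hB := stepB hA ht htN
  obtain ⟨e, he, het⟩ := hB t ht
  have heN : e ∉ NN A.toSubmodule := fun h => htN (by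
    rw [het]
    exact NN_right (P := A.toSubmodule) ht h)
  have hD : ∀ z ∈ A, z * t ∈ NN A.toSubmodule → z ∈ NN A.toSubmodule := by
    intro z hz hzt
    by_contra hzN
    apply htN
    obtain ⟨c, hc, h1⟩ := hB t ht
    obtain ⟨d, hd, h2⟩ := stepB hA hz hzN c hc
    rw [h1, h2, mul_assoc]
    exact NN_left (P := A.toSubmodule) hd hzt
  have hE : ∀ u ∈ A, u * e - u ∈ NN A.toSubmodule := by
    intro u hu
    refine hD _ (A.sub_mem (A.mul_mem hu he) hu) ?_
    rw [sub_mul, mul_assoc, ← het, sub_self]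
    exact Submodule.zero_mem _
  have hF : ∀ n : ℕ, e ^ (n + 1) ∈ A ∧ e ^ (n + 1) - e ∈ NN A.toSubmodule := by
    intro n
    induction n with
    | zero =>
      rw [zero_add, pow_one, sub_self]
      exact ⟨he, Submodule.zero_mem _⟩
    | succ n ih =>
      refine ⟨by rw [pow_succ]; exact A.mul_mem ih.1 he, ?_⟩
      have h1 := Submodule.add_mem _ (hE _ ih.1) ih.2
      have h2 : e ^ (n + 1) * e - e ^ (n + 1) + (e ^ (n + 1) - e) = e ^ (n + 1 + 1) - e := by
        rw [pow_succ e (n + 1)]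
        abel
      rw [h2] at h1
      exact h1
  by_cases hBA : NonUnitalAlgebra.adjoin K {e} = A
  · obtain ⟨a, ha, b, hb, hab⟩ := hA.nc
    apply hab
    have h1 : ∀ x ∈ A, e * x = x * e := by
      intro x hx
      have hle : NonUnitalAlgebra.adjoin K {e} ≤ NonUnitalSubalgebra.centralizer K {e} := by
        refine NonUnitalAlgebra.adjoin_le ?_
        intro y hy
        rw [Set.mem_singleton_iff] at hy
        subst hy
        exact (NonUnitalSubalgebra.mem_centralizer_iff K).2 fun g hg => by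
          rw [Set.mem_singleton_iff] at hg
          rw [hg]
      exact (NonUnitalSubalgebra.mem_centralizer_iff K).1 (hle (hBA ▸ hx)) e rfl
    have hle : NonUnitalAlgebra.adjoin K {e} ≤ NonUnitalSubalgebra.centralizer K (A : Set R) := by
      refine NonUnitalAlgebra.adjoin_le ?_
      intro y hy
      rw [Set.mem_singleton_iff] at hy
      subst hy
      exact (NonUnitalSubalgebra.mem_centralizer_iff K).2 fun g hg => (h1 g hg).symm
    exact (NonUnitalSubalgebra.mem_centralizer_iff K).1 (hle (hBA ▸ hb)) a ha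
  · have hle : NonUnitalAlgebra.adjoin K {e} ≤ A :=
      NonUnitalAlgebra.adjoin_le (by
        intro y hy
        rw [Set.mem_singleton_iff] at hy
        subst hy
        exact he)
    obtain ⟨n, hn⟩ := hA.nil _ hle hBA
    have h1 := hn (List.replicate n e) (fun x hx => by
      rw [List.eq_of_mem_replicate hx]
      exact NonUnitalAlgebra.subset_adjoin K rfl) (List.length_replicate)
    rw [List.prod_replicate] at h1
    have h2 := (hF n).2
    rw [pow_succ, h1, zero_mul, zero_sub] at h2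
    exact heN ((Submodule.neg_mem_iff _).1 h2)

theorem main : S_FG := by
  intro K R _ _ _ A hA s hs
  classical
  have key : ∀ s : Finset R, (∀ x ∈ s, x ∈ A) → ∃ V : Submodule K R, IsId A.toSubmodule V ∧
      (∃ n : ℕ, V ^ n ≤ ⊥) ∧ ∀ x ∈ s, x ∈ V := by
    intro s
    induction s using Finset.induction_on with
    | empty => exact fun _ => ⟨⊥, isId_bot _, ⟨1, by rw [pow_one]⟩, by simp⟩
    | insert a s _ ih =>
      intro h
      obtain ⟨V, hV, ⟨n, hn⟩, hs⟩ := ih fun x hx => h x (Finset.mem_insert_of_mem hx)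
      obtain ⟨W, hW, ⟨m, hm⟩, ha⟩ := all_mem hA (h a (Finset.mem_insert_self a s))
      refine ⟨V ⊔ W, hV.sup hW, ⟨n * m, nil_sup (isId_bot _) hV hW hn hm⟩, ?_⟩
      intro x hx
      rcases Finset.mem_insert.1 hx with rfl | hx
      · exact Submodule.mem_sup_right ha
      · exact Submodule.mem_sup_left (hs x hx)
  obtain ⟨V, hV, ⟨n, hn⟩, hsV⟩ := key s hs
  refine ⟨n, fun l hl hlen => ?_⟩
  have h1 : ∀ t ∈ l, t ∈ V := by
    intro t ht
    obtain ⟨x, hx, h | ⟨c, hc, h⟩⟩ := hl t ht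
    · rw [h]; exact hsV x hx
    · rw [h]; exact hV.right (Submodule.mul_mem_mul (hsV x hx) hc)
  have h2 := prod_mem l h1
  rw [hlen] at h2
  exact (Submodule.mem_bot K).1 (hn h2)

end Pool.Agent.Helper27.NF.FG
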