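import Pool.Agent.Helper27.NF.Stm

/-!
MP_3938c6_al, project NF: module SEQ.
-/

set_option autoImplicit false

namespace Pool.Agent.Helper27.NF.Seq

variable {K R : Type} [Field K] [Ring R] [Algebra K R] {A : NonUnitalSubalgebra K R}

/-- an element of the subalgebra generated by an increasing union -/
lemma mem_of_union {S : ℕ → Set R} (hS : Monotone S) {x : R}
    (hx : x ∈ NonUnitalAlgebra.adjoin K (⋃ n, S n)) : ∃ n, x ∈ NonUnitalAlgebra.adjoin K (S n) := by
  have hmono : ∀ {n m : ℕ}, n ≤ m → NonUnitalAlgebra.adjoin K (S n) ≤ NonUnitalAlgebra.adjoin K (S m) :=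
    fun h => NonUnitalAlgebra.adjoin_mono (hS h)
  refine NonUnitalAlgebra.adjoin_induction
    (p := fun x _ => ∃ n, x ∈ NonUnitalAlgebra.adjoin K (S n)) ?_ ?_ ?_ ?_ ?_ hx
  · intro y hy
    obtain ⟨n, hn⟩ := Set.mem_iUnion.1 hy
    exact ⟨n, NonUnitalAlgebra.subset_adjoin K hn⟩
  · rintro y z - - ⟨n, hn⟩ ⟨m, hm⟩
    exact ⟨max n m, add_mem (hmono (le_max_left n m) hn) (hmono (le_max_right n m) hm)⟩
  · exact ⟨0, zero_mem _⟩
  · rintro y z - - ⟨n, hn⟩ ⟨m, hm⟩
    exact ⟨max n m, mul_mem (hmono (le_max_left n m) hn) (hmono (le_max_right n m) hm)⟩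
  · rintro c y - ⟨n, hn⟩
    exact ⟨n, SMulMemClass.smul_mem c hn⟩

theorem main : S_SEQ := by
  intro K R _ _ _ A hA w hw h0 hstep
  -- the sequence
  choose! y hy using hstep
  let Ls : ℕ → List R := fun n => Nat.rec [] (fun _ L => L ++ [y L]) n
  have hsucc : ∀ n, Ls (n + 1) = Ls n ++ [y (Ls n)] := fun n => rfl
  have hInv : ∀ n, Inv A w (Ls n) := by
    intro n
    induction n with
    | zero => exact h0
    | succ n ih => rw [hsucc]; exact hy _ ih
  have hlen : ∀ n, (Ls n).length = n := by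
    intro n
    induction n with
    | zero => rfl
    | succ n ih => rw [hsucc, List.length_append, ih]; rfl
  have hmono : Monotone (fun n => {z : R | z ∈ Ls n}) := by
    refine monotone_nat_of_le_succ fun n z hz => ?_
    show z ∈ Ls (n + 1)
    rw [hsucc]
    exact List.mem_append_left _ hz
  let B : NonUnitalSubalgebra K R := NonUnitalAlgebra.adjoin K (⋃ n, {z : R | z ∈ Ls n})
  have hBA : B ≤ A := by
    refine NonUnitalAlgebra.adjoin_le ?_
    intro z hz
    obtain ⟨n, hn⟩ := Set.mem_iUnion.1 hz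
    exact (hInv n).1 z hn
  have hwB : w ∉ B := by
    intro hwB
    obtain ⟨n, hn⟩ := mem_of_union hmono hwB
    refine (hInv n).2 w hn ?_
    intro a _ b _ c _
    rw [sub_self, mul_zero, zero_mul]
  have hne : B ≠ A := fun h => hwB (h ▸ hw)
  obtain ⟨n, hn⟩ := hA.nil B hBA hne
  have h1 : (Ls n).prod = 0 :=
    hn (Ls n) (fun x hx => NonUnitalAlgebra.subset_adjoin K (Set.mem_iUnion.2 ⟨n, hx⟩)) (hlen n)
  refine (hInv n).2 0 (zero_mem _) ?_
  intro a _ b _ c _
  rw [h1, mul_zero, zero_mul, zero_mul, zero_mul]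

end Pool.Agent.Helper27.NF.Seq
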