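import Pool.Agent.Helper27.NF.Main
import Pool.Agent.Helper27.NF.Seq
import Pool.Agent.Helper27.NF.Fg
import Pool.Agent.Helper27.NF.End
import Pool.Agent.Helper77.NF.Step

set_option autoImplicit false
set_option linter.unusedVariables false

namespace Pool.Agent.Helper27.NF

theorem s_FALSE : S_FALSE := fun K R _ _ _ _ A hNF hM w hw h0 =>
  Seq.main K R A hM w hw h0 (fun L hL =>
    Pool.Agent.Helper77.NF.Step.main s_KEY FG.main K R A hNF hM w hw L hL)

theorem s_END : S_END := End.main s_FALSE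

section fin
variable {K A C : Type} [Field K]
  [NonUnitalRing A] [Module K A] [IsScalarTower K A A] [SMulCommClass K A A]
  [NonUnitalRing C] [Module K C] [IsScalarTower K C C] [SMulCommClass K C C]

/-- The operator `b ↦ ∑ p i b q i`. -/
def opr {n : ℕ} (p q : Fin n → C) : C →ₗ[K] C where
  toFun b := ∑ i, p i * b * q i
  map_add' a b := by
    rw [← Finset.sum_add_distrib]
    refine Finset.sum_congr rfl (fun i _ => ?_)
    rw [mul_add, add_mul]
  map_smul' k b := by
    rw [RingHom.id_apply, Finset.smul_sum]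
    refine Finset.sum_congr rfl (fun i _ => ?_)
    rw [mul_smul_comm, smul_mul_assoc]

variable (K) in
/-- finite rank -/
def FR {n : ℕ} (p q : Fin n → C) : Prop :=
  ∃ S : Submodule K C, FiniteDimensional K S ∧ ∀ b : C, ∑ i, p i * b * q i ∈ S

variable (K C) in
/-- The common kernel of the operators of finite rank. -/
def NK : NonUnitalSubalgebra K C where
  carrier := {c | ∀ (n : ℕ) (p q : Fin n → C), FR K p q → ∑ i, p i * c * q i = 0}
  add_mem' := by
    intro x y hx hy n p q h
    have := map_add (opr (K := K) p q) x y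
    have e : ∑ i, p i * (x + y) * q i = ∑ i, p i * x * q i + ∑ i, p i * y * q i := this
    rw [e, hx n p q h, hy n p q h, add_zero]
  zero_mem' := by
    intro n p q h
    exact map_zero (opr (K := K) p q)
  mul_mem' := by
    intro x y hx hy n p q h
    obtain ⟨S, hS, h1⟩ := h
    have e : ∑ i, p i * (x * y) * q i = ∑ i, p i * x * (y * q i) :=
      Finset.sum_congr rfl (fun i _ => by simp only [mul_assoc])
    rw [e]
    refine hx n p (fun i => y * q i) ⟨S, hS, fun b => ?_⟩
    have e2 : ∑ i, p i * b * (y * q i) = ∑ i, p i * (b * y) * q i :=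
      Finset.sum_congr rfl (fun i _ => by simp only [mul_assoc])
    rw [e2]
    exact h1 _
  smul_mem' := by
    intro k x hx n p q h
    have := map_smul (opr (K := K) p q) k x
    have e : ∑ i, p i * (k • x) * q i = k • ∑ i, p i * x * q i := this
    rw [e, hx n p q h, smul_zero]

theorem mapfold (f : A →ₙₐ[K] C) (l : List A) : ∀ a : A,
    f (l.foldl (fun x y => x * y) a) = (l.map f).foldl (fun x y => x * y) (f a) := by
  induction l with
  | nil => intro a; rfl
  | cons b l ih =>
    intro a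
    rw [List.foldl_cons, ih, map_mul, List.map_cons, List.foldl_cons]

theorem propC (hprop : ∀ B : NonUnitalSubalgebra K A, B ≠ ⊤ →
      ∃ n : ℕ, ∀ a ∈ B, ∀ l : List A, (∀ x ∈ l, x ∈ B) → l.length = n →
        l.foldl (fun x y => x * y) a = 0) (f : A →ₙₐ[K] C) (hf : Function.Surjective f)
    (B' : NonUnitalSubalgebra K C) (hB' : B' ≠ ⊤) :
    ∃ n : ℕ, ∀ a ∈ B', ∀ l : List C, (∀ x ∈ l, x ∈ B') → l.length = n →
        l.foldl (fun x y => x * y) a = 0 := by
  have hne : B'.comap f ≠ ⊤ := by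
    intro h
    apply hB'
    rw [eq_top_iff]
    intro x _
    obtain ⟨a, rfl⟩ := hf x
    have : a ∈ B'.comap f := by rw [h]; exact NonUnitalAlgebra.mem_top
    exact this
  obtain ⟨n, hn⟩ := hprop _ hne
  refine ⟨n, ?_⟩
  intro c hc l hl hlen
  choose g hg using hf
  have h1 := hn (g c) (by rw [NonUnitalSubalgebra.mem_comap, hg]; exact hc) (l.map g) (by
    intro x hx
    rw [List.mem_map] at hx
    obtain ⟨y, hy, rfl⟩ := hx
    rw [NonUnitalSubalgebra.mem_comap, hg]
    exact hl y hy) (by rw [List.length_map, hlen])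
  have h2 := congrArg f h1
  rw [mapfold, map_zero, hg, List.map_map] at h2
  have h3 : l.map (f ∘ g) = l := by
    have : (f ∘ g : C → C) = id := by funext x; exact hg x
    rw [this, List.map_id]
  rwa [h3] at h2

theorem fin [CharZero K] [Nontrivial C] (hdim : 1 < Module.rank K A)
    (hprop : ∀ B : NonUnitalSubalgebra K A, B ≠ ⊤ →
      ∃ n : ℕ, ∀ a ∈ B, ∀ l : List A, (∀ x ∈ l, x ∈ B) → l.length = n →
        l.foldl (fun x y => x * y) a = 0)
    (hnil : ¬ ∃ n : ℕ, ∀ a : A, ∀ l : List A, l.length = n → l.foldl (fun x y => x * y) a = 0)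
    (f : A →ₙₐ[K] C) (hf : Function.Surjective f) :
    (∃ (n : ℕ) (p q : Fin n → C), FR K p q ∧ ∃ b, ∑ i, p i * b * q i ≠ 0) ∧
    (∃ m : ℕ, ∀ c ∈ NK K C, ∀ l : List C, (∀ x ∈ l, x ∈ NK K C) → l.length = m →
      l.foldl (fun x y => x * y) c = 0) ∧
    (∃ S : Submodule K C, S ≠ ⊥ ∧ FiniteDimensional K S ∧ ∀ t : C →ₗ[K] C,
      (∀ a b, t (a * b) = t a * b ∧ t (a * b) = a * t b) → ∀ x ∈ S, t x ∈ S) := by
  have h1 : ∃ (n : ℕ) (p q : Fin n → C), FR K p q ∧ ∃ b, ∑ i, p i * b * q i ≠ 0 := by
    by_contra hcon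
    push Not at hcon
    exact hnil (s_END K A C hdim hprop f hf (fun n p q h b => hcon n p q h b))
  obtain ⟨n, p, q, ⟨S, hS, hT⟩, b, hb⟩ := h1
  refine ⟨⟨n, p, q, ⟨S, hS, hT⟩, b, hb⟩, ?_, ?_⟩
  · refine propC hprop f hf (NK K C) (fun h => hb ?_)
    have : b ∈ NK K C := by rw [h]; exact NonUnitalAlgebra.mem_top
    exact this n p q ⟨S, hS, hT⟩
  · let T : C →ₗ[K] C := opr p q
    have hle : LinearMap.range T ≤ S := by
      rintro _ ⟨c, rfl⟩
      exact hT c
    refine ⟨LinearMap.range T, ?_, Submodule.finiteDimensional_of_le hle, ?_⟩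
    · intro h
      apply hb
      have : T b ∈ LinearMap.range T := ⟨b, rfl⟩
      rw [h, Submodule.mem_bot] at this
      exact this
    · rintro t ht _ ⟨c, rfl⟩
      refine ⟨t c, ?_⟩
      show ∑ i, p i * t c * q i = t (∑ i, p i * c * q i)
      rw [map_sum]
      refine Finset.sum_congr rfl (fun i _ => ?_)
      rw [(ht (p i * c) (q i)).1, (ht (p i) c).2]

theorem ext_fin {L : Type} [Field L] [Algebra K L] [Module L C] [IsScalarTower K L C]
    [IsScalarTower L C C] [SMulCommClass L C C]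
    (h : ∃ S : Submodule K C, S ≠ ⊥ ∧ FiniteDimensional K S ∧ ∀ t : C →ₗ[K] C,
      (∀ a b, t (a * b) = t a * b ∧ t (a * b) = a * t b) → ∀ x ∈ S, t x ∈ S) :
    FiniteDimensional K L := by
  obtain ⟨S, hS, hfd, hinv⟩ := h
  obtain ⟨c, hc, hc0⟩ := (Submodule.ne_bot_iff S).1 hS
  have hmem : ∀ m : L, m • c ∈ S := by
    intro m
    let t : C →ₗ[K] C :=
      { toFun := fun x => m • x
        map_add' := fun x y => smul_add m x y
        map_smul' := fun k x => by
          rw [RingHom.id_apply, ← algebraMap_smul L k x, ← algebraMap_smul L k (m • x),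
            smul_smul, smul_smul, mul_comm] }
    exact hinv t (fun a b => ⟨(smul_mul_assoc m a b).symm, (mul_smul_comm m a b).symm⟩) c hc
  let φ : L →ₗ[K] S :=
    { toFun := fun m => ⟨m • c, hmem m⟩
      map_add' := fun x y => Subtype.ext (add_smul x y c)
      map_smul' := fun k x => Subtype.ext (smul_assoc k x c) }
  refine FiniteDimensional.of_injective φ ?_
  rw [← LinearMap.ker_eq_bot, LinearMap.ker_eq_bot']
  intro m hm
  have : m • c = 0 := congrArg Subtype.val hm
  exact (smul_eq_zero.1 this).resolve_right hc0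

end fin

end Pool.Agent.Helper27.NF
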