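import Pool.Agent.Helper27.NF.Lin

set_option autoImplicit false
set_option linter.unusedVariables false

namespace Pool.Agent.Helper27.NF

open Polynomial

section word
variable {K R ι : Type} [Field K] [Ring R] [Algebra K R]

theorem ev_nil (y : ι → R) (z : R) : ev y z [] = 1 := rfl

theorem ev_cons (y : ι → R) (z : R) (o : Option ι) (l : List (Option ι)) :
    ev y z (o :: l) = o.elim z y * ev y z l := by
  unfold ev
  rw [List.map_cons, List.prod_cons]

/-- The derivative of `ev`. -/
def dv (y : ι → R) (z z' : R) : List (Option ι) → R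
  | [] => 0
  | o :: l => o.elim z' (fun _ => 0) * ev y z l + o.elim z y * dv y z z' l

/-- The polynomial of a word. -/
noncomputable def pv (y : ι → R) (z z' : R) : List (Option ι) → R[X]
  | [] => 1
  | o :: l => o.elim (C z + C z' * X) (fun i => C (y i)) * pv y z z' l

theorem eval_lin (s : K) (z z' : R) :
    (C z + C z' * X : R[X]).eval (algebraMap K R s) = z + s • z' := by
  rw [eval_add, eval_C, eval_mul_X, eval_C, ← Algebra.commutes, ← Algebra.smul_def]

theorem eval_pv (y : ι → R) (z z' : R) (s : K) : ∀ l : List (Option ι),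
    (pv y z z' l).eval (algebraMap K R s) = ev y (z + s • z') l
  | [] => by rw [pv, ev_nil, eval_one]
  | o :: l => by
    have hc : ∀ k, Commute ((pv y z z' l).coeff k) (algebraMap K R s) :=
      fun k => (Algebra.commutes s _).symm
    rw [pv, ev_cons, ← eval_pv y z z' s l]
    unfold Polynomial.eval
    rw [eval₂_mul_noncomm (RingHom.id R) _ hc]
    congr 1
    rcases o with _ | i
    · exact eval_lin s z z'
    · exact eval_C

theorem pv_coeff_zero (y : ι → R) (z z' : R) : ∀ l : List (Option ι),
    (pv y z z' l).coeff 0 = ev y z l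
  | [] => by rw [pv, ev_nil, coeff_one_zero]
  | o :: l => by
    rw [pv, ev_cons, mul_coeff_zero, pv_coeff_zero y z z' l]
    congr 1
    rcases o with _ | i
    · show (C z + C z' * X : R[X]).coeff 0 = z
      simp
    · exact coeff_C_zero

theorem pv_coeff_one (y : ι → R) (z z' : R) : ∀ l : List (Option ι),
    (pv y z z' l).coeff 1 = dv y z z' l
  | [] => by rw [pv, dv, coeff_one]; simp
  | o :: l => by
    rw [pv, dv, mul_coeff_one, pv_coeff_zero y z z' l, pv_coeff_one y z z' l, add_comm]
    rcases o with _ | i
    · show (C z + C z' * X : R[X]).coeff 1 * ev y z l + (C z + C z' * X : R[X]).coeff 0 *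
        dv y z z' l = z' * ev y z l + z * dv y z z' l
      simp [coeff_C]
    · show (C (y i) : R[X]).coeff 1 * ev y z l + (C (y i) : R[X]).coeff 0 *
        dv y z z' l = 0 * ev y z l + y i * dv y z z' l
      simp [coeff_C]

theorem ev_mem {A : NonUnitalSubalgebra K R} {y : ι → R} (hy : ∀ i, y i ∈ A) {z : R}
    (hz : z ∈ A) {q : R} (hq : q ∈ A) : ∀ l : List (Option ι), ev y z l * q ∈ A
  | [] => by rw [ev_nil, one_mul]; exact hq
  | o :: l => by
    rw [ev_cons, mul_assoc]
    refine mul_mem ?_ (ev_mem hy hz hq l)
    rcases o with _ | i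
    · exact hz
    · exact hy i

theorem ev_mem' {A : NonUnitalSubalgebra K R} {y : ι → R} (hy : ∀ i, y i ∈ A) {z : R}
    (hz : z ∈ A) {l : List (Option ι)} (hl : l ≠ []) : ev y z l ∈ A := by
  induction l with
  | nil => exact absurd rfl hl
  | cons o l ih =>
    rw [ev_cons]
    have ho : o.elim z y ∈ A := by
      rcases o with _ | i
      · exact hz
      · exact hy i
    by_cases h : l = []
    · rw [h, ev_nil, mul_one]; exact ho
    · exact mul_mem ho (ih h)

theorem dv_self (y : ι → R) (z : R) : ∀ l : List (Option ι),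
    dv y z z l = ((l.filter (fun o => o.isNone)).length : K) • ev y z l
  | [] => by rw [dv]; simp
  | o :: l => by
    rw [dv, dv_self y z l, ev_cons]
    rcases o with _ | i
    · show z * ev y z l + z * _ = _ • (z * ev y z l)
      simp only [List.filter_cons, Option.isNone_none, if_true, List.length_cons]
      rw [mul_smul_comm]
      push_cast
      rw [add_smul, one_smul, add_comm]
    · show 0 * ev y z l + y i * _ = _ • (y i * ev y z l)
      rw [zero_mul, zero_add, mul_smul_comm]
      simp

theorem dv_none (y : ι → R) (z z' : R) : ∀ l : List (Option ι), none ∉ l → dv y z z' l = 0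
  | [], _ => rfl
  | o :: l, h => by
    rw [dv, dv_none y z z' l (fun h' => h (List.mem_cons_of_mem _ h')), mul_zero, add_zero]
    rcases o with _ | i
    · exact absurd List.mem_cons_self h
    · show 0 * _ = (0 : R)
      rw [zero_mul]

theorem ev_none (y : ι → R) (z z' : R) : ∀ l : List (Option ι), none ∉ l → ev y z l = ev y z' l
  | [], _ => rfl
  | o :: l, h => by
    rw [ev_cons, ev_cons, ev_none y z z' l (fun h' => h (List.mem_cons_of_mem _ h'))]
    rcases o with _ | i
    · exact absurd List.mem_cons_self h
    · rfl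

/-- Elementary operators, as lists. -/
def EO (A : NonUnitalSubalgebra K R) (T : R → R) : Prop :=
  ∃ m : List (R × R), (∀ t ∈ m, t.1 ∈ A ∧ t.2 ∈ A) ∧ ∀ b, T b = (m.map (fun t => t.1 * b * t.2)).sum

theorem EO.zero (A : NonUnitalSubalgebra K R) : EO A (fun _ => 0) := ⟨[], by simp, by simp⟩

theorem EO.single {A : NonUnitalSubalgebra K R} {p q : R} (hp : p ∈ A) (hq : q ∈ A) :
    EO A (fun b => p * b * q) := ⟨[(p, q)], by simp [hp, hq], by simp⟩

theorem EO.add {A : NonUnitalSubalgebra K R} {T U : R → R} (hT : EO A T) (hU : EO A U) :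
    EO A (fun b => T b + U b) := by
  obtain ⟨m, h1, h2⟩ := hT
  obtain ⟨n, h3, h4⟩ := hU
  refine ⟨m ++ n, ?_, fun b => ?_⟩
  · intro t ht
    rcases List.mem_append.1 ht with h | h
    · exact h1 t h
    · exact h3 t h
  · show T b + U b = _
    rw [List.map_append, List.sum_append, h2, h4]

theorem EO.smul {A : NonUnitalSubalgebra K R} {T : R → R} (hT : EO A T) (k : K) :
    EO A (fun b => k • T b) := by
  obtain ⟨m, h1, h2⟩ := hT
  refine ⟨m.map (fun t => (k • t.1, t.2)), ?_, fun b => ?_⟩
  · intro t ht
    obtain ⟨u, hu, rfl⟩ := List.mem_map.1 ht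
    exact ⟨SMulMemClass.smul_mem k (h1 u hu).1, (h1 u hu).2⟩
  · show k • T b = _
    rw [h2, List.smul_sum, List.map_map, List.map_map]
    congr 1
    refine List.map_congr_left (fun t _ => ?_)
    simp only [Function.comp_apply]
    rw [smul_mul_assoc, smul_mul_assoc]

theorem EO.sum {A : NonUnitalSubalgebra K R} {κ : Type} (s : Finset κ) (T : κ → R → R)
    (hT : ∀ k ∈ s, EO A (T k)) : EO A (fun b => ∑ k ∈ s, T k b) := by
  classical
  induction s using Finset.induction_on with
  | empty => simpa using EO.zero A
  | insert a s ha ih =>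
    simp only [Finset.sum_insert ha]
    exact (hT a (Finset.mem_insert_self a s)).add
      (ih (fun k hk => hT k (Finset.mem_insert_of_mem hk)))

theorem EO.dv {A : NonUnitalSubalgebra K R} {y : ι → R} (hy : ∀ i, y i ∈ A) {x z : R}
    (hx : x ∈ A) (hz : z ∈ A) {q : R} (hq : q ∈ A) : ∀ (l : List (Option ι)) (p : R), p ∈ A →
    EO A (fun b => p * NF.dv y z (x * b) l * q)
  | [], p, hp => by
    simp only [NF.dv, mul_zero, zero_mul]
    exact EO.zero A
  | o :: l, p, hp => by
    rcases o with _ | i
    · have h1 : EO A (fun b => (p * x) * b * (ev y z l * q)) :=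
        EO.single (mul_mem hp hx) (ev_mem hy hz hq l)
      have h2 := h1.add (EO.dv hy hx hz hq l (p * z) (mul_mem hp hz))
      have e : (fun b => p * NF.dv y z (x * b) (none :: l) * q) =
          fun b => (p * x) * b * (ev y z l * q) + (p * z) * NF.dv y z (x * b) l * q := by
        funext b
        show p * ((x * b) * ev y z l + z * NF.dv y z (x * b) l) * q = _
        noncomm_ring
      rw [e]
      exact h2
    · have h2 := EO.dv hy hx hz hq l (p * y i) (mul_mem hp (hy i))
      have e : (fun b => p * NF.dv y z (x * b) (some i :: l) * q) =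
          fun b => (p * y i) * NF.dv y z (x * b) l * q := by
        funext b
        show p * (0 * ev y z l + y i * NF.dv y z (x * b) l) * q = _
        noncomm_ring
      rw [e]
      exact h2

theorem EO.noFin {A : NonUnitalSubalgebra K R} (hA : NoFin A) {T : R → R} (hT : EO A T)
    (S : Submodule K R) (hS : FiniteDimensional K S) (hTS : ∀ b ∈ A, T b ∈ S) :
    ∀ b ∈ A, T b = 0 := by
  obtain ⟨m, h1, h2⟩ := hT
  have e : ∀ b, ∑ i : Fin m.length, (m.get i).1 * b * (m.get i).2 = T b := by
    intro b
    rw [h2, ← List.sum_ofFn]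
    congr 1
    apply List.ext_get
    · simp
    · intro n h h'
      simp
  have := hA m.length (fun i => (m.get i).1) (fun i => (m.get i).2)
    (fun i => h1 _ (List.get_mem _ _)) ⟨S, hS, fun b hb => by rw [e]; exact hTS b hb⟩
  intro b hb
  rw [← e]
  exact this b hb

end word

end Pool.Agent.Helper27.NF
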