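import Pool.Agent.Helper27.NF.Stm

set_option autoImplicit false
set_option linter.unusedVariables false

namespace Pool.Agent.Helper27.NF

open Polynomial

section lin
variable {K E : Type} [Field K] [AddCommGroup E] [Module K E]

theorem exists_dual {κ : Type} [Fintype κ] [DecidableEq κ] (e : κ → E)
    (he : LinearIndependent K e) :
    ∃ lam : κ → (E →ₗ[K] K), ∀ i j, lam i (e j) = if i = j then 1 else 0 := by
  classical
  let B := Module.Basis.span he
  have h : ∀ i, ∃ g : E →ₗ[K] K, g ∘ₗ (Submodule.span K (Set.range e)).subtype = B.coord i :=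
    fun i => LinearMap.exists_extend _
  choose g hg using h
  refine ⟨g, fun i j => ?_⟩
  have h1 : (B j : E) = e j := congrArg Subtype.val (Module.Basis.span_apply he j)
  rw [← h1]
  have h2 := LinearMap.congr_fun (hg i) (B j)
  simp only [LinearMap.comp_apply, Submodule.subtype_apply] at h2
  rw [h2, Module.Basis.coord_apply, Module.Basis.repr_self, Finsupp.single_apply]
  by_cases hij : i = j
  · rw [if_pos hij, if_pos hij.symm]
  · rw [if_neg hij, if_neg (fun h => hij h.symm)]

theorem indep [Infinite K] {κ : Type} [Fintype κ] (e : κ → E) (e' : E)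
    (he : LinearIndependent K (fun o : Option κ => o.elim e' e)) (q : κ → K → E) (g : K → E)
    (hq : ∀ k, ∀ lam : E →ₗ[K] K, ∃ p : K[X], (∀ s, p.eval s = lam (q k s)) ∧
      p.coeff 0 = lam (e k))
    (hg : ∀ lam : E →ₗ[K] K, ∃ p : K[X], (∀ s, p.eval s = lam (g s)) ∧ p.coeff 0 = 0 ∧
      p.coeff 1 = lam e') :
    ∃ s : K, LinearIndependent K (fun o : Option κ => o.elim (g s) (fun k => q k s)) := by
  classical
  obtain ⟨lam, hlam⟩ := exists_dual _ he
  choose pg hpg1 hpg2 hpg3 using hg
  choose pq hpq1 hpq2 using hq
  let M : Matrix (Option κ) (Option κ) K[X] :=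
    fun i j => j.elim (pg (lam i)).divX (fun k => pq k (lam i))
  have hM0 : (M.map (Polynomial.evalRingHom (0 : K))) = 1 := by
    ext i j
    rw [Matrix.map_apply, Matrix.one_apply]
    rw [← hlam i j]
    rcases j with _ | k
    · show (pg (lam i)).divX.eval 0 = lam i e'
      rw [← Polynomial.coeff_zero_eq_eval_zero, Polynomial.coeff_divX, ← hpg3]
    · show (pq k (lam i)).eval 0 = lam i (e k)
      rw [← Polynomial.coeff_zero_eq_eval_zero, hpq2]
  have hdet : M.det ≠ 0 := by
    intro h
    have h1 : (Polynomial.evalRingHom (0 : K)) M.det = 1 := by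
      rw [RingHom.map_det]
      show (M.map (Polynomial.evalRingHom (0 : K))).det = 1
      rw [hM0, Matrix.det_one]
    rw [h, map_zero] at h1
    exact zero_ne_one h1
  obtain ⟨s, hs⟩ : ∃ s : K, (X * M.det).eval s ≠ 0 := by
    by_contra hcon
    push Not at hcon
    have : (X * M.det : K[X]) = 0 := Polynomial.funext (fun r => by rw [hcon r, eval_zero])
    exact (mul_ne_zero X_ne_zero hdet) this
  rw [eval_mul, eval_X] at hs
  have hs0 : s ≠ 0 := left_ne_zero_of_mul hs
  have hsd : (M.det).eval s ≠ 0 := right_ne_zero_of_mul hs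
  refine ⟨s, ?_⟩
  rw [Fintype.linearIndependent_iff]
  intro c hc
  have hMs : (M.map (Polynomial.evalRingHom s)).det ≠ 0 := by
    have h1 : (Polynomial.evalRingHom s) M.det = (M.map (Polynomial.evalRingHom s)).det := by
      rw [RingHom.map_det]
      rfl
    rw [← h1]
    exact hsd
  let c' : Option κ → K := fun o => o.elim (s * c none) (fun k => c (some k))
  have hmul : (M.map (Polynomial.evalRingHom s)).mulVec c' = 0 := by
    ext i
    have h1 := congrArg (lam i) hc
    rw [map_zero, Fintype.sum_option, map_add, map_sum] at h1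
    rw [Matrix.mulVec, dotProduct, Fintype.sum_option, Pi.zero_apply, ← h1]
    congr 1
    · show (pg (lam i)).divX.eval s * (s * c none) = lam i (c none • g s)
      rw [map_smul, smul_eq_mul, ← hpg1]
      conv_rhs => rw [← Polynomial.divX_mul_X_add (pg (lam i))]
      rw [eval_add, eval_mul, eval_X, eval_C, hpg2]
      ring
    · refine Finset.sum_congr rfl (fun k _ => ?_)
      show (pq k (lam i)).eval s * c (some k) = lam i (c (some k) • q k s)
      rw [map_smul, smul_eq_mul, hpq1]
      ring
  have hz := Matrix.eq_zero_of_mulVec_eq_zero hMs hmul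
  intro o
  rcases o with _ | k
  · have : s * c none = 0 := congrFun hz none
    exact (mul_eq_zero.1 this).resolve_left hs0
  · exact congrFun hz (some k)

end lin

section pol
variable {K R : Type} [Field K] [Ring R] [Algebra K R]

theorem pol_lin (μ : R →ₗ[K] K) (φ : R[X]) : ∃ p : K[X],
    (∀ s : K, p.eval s = μ (φ.eval (algebraMap K R s))) ∧ ∀ j, p.coeff j = μ (φ.coeff j) := by
  refine ⟨∑ j ∈ Finset.range (φ.natDegree + 1), monomial j (μ (φ.coeff j)), fun s => ?_,
    fun j => ?_⟩
  · rw [Polynomial.eval_finsetSum, Polynomial.eval_eq_sum_range, map_sum]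
    refine Finset.sum_congr rfl (fun j _ => ?_)
    rw [eval_monomial, ← map_pow, ← Algebra.commutes, ← Algebra.smul_def, map_smul, smul_eq_mul]
    ring
  · rw [Polynomial.finsetSum_coeff]
    simp only [coeff_monomial]
    by_cases hj : j ∈ Finset.range (φ.natDegree + 1)
    · rw [Finset.sum_eq_single j]
      · rw [if_pos rfl]
      · intro b _ hb
        rw [if_neg hb]
      · intro h; exact absurd hj h
    · rw [Finset.sum_eq_zero]
      · rw [coeff_eq_zero_of_natDegree_lt, map_zero]
        rw [Finset.mem_range] at hj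
        omega
      · intro b hb
        rw [if_neg]
        intro h
        exact hj (h ▸ hb)

end pol

end Pool.Agent.Helper27.NF
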