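import Pool.Agent.Helper27.NF.Key

set_option autoImplicit false
set_option linter.unusedVariables false

namespace Pool.Agent.Helper27.NF

open Polynomial

section main
variable {K R ι : Type} [Field K] [Ring R] [Algebra K R]

/-- The bilinear map `(c, h) ↦ ((a, b, d) ↦ a (r c) b h d)`. -/
def bt (K : Type) [Field K] [Algebra K R] (A : NonUnitalSubalgebra K R) (r c : R) :
    R →ₗ[K] (A × A × A → R) where
  toFun h := fun t => (t.1 : R) * (r * c) * t.2.1 * h * t.2.2
  map_add' h h' := by
    funext t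
    show _ = (t.1 : R) * (r * c) * t.2.1 * h * t.2.2 + (t.1 : R) * (r * c) * t.2.1 * h' * t.2.2
    noncomm_ring
  map_smul' k h := by
    funext t
    show (t.1 : R) * (r * c) * t.2.1 * (k • h) * t.2.2 =
      k • ((t.1 : R) * (r * c) * t.2.1 * h * t.2.2)
    rw [mul_smul_comm, smul_mul_assoc]

theorem bt_add (A : NonUnitalSubalgebra K R) (r c b : R) (s : K) (h : R) :
    bt K A r (c + s • b) h = bt K A r c h + s • bt K A r b h := by
  funext t
  show (t.1 : R) * (r * (c + s • b)) * t.2.1 * h * t.2.2 =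
    (t.1 : R) * (r * c) * t.2.1 * h * t.2.2 + s • ((t.1 : R) * (r * b) * t.2.1 * h * t.2.2)
  rw [mul_add, mul_smul_comm, mul_add, mul_smul_comm, add_mul, add_mul, add_mul, smul_mul_assoc,
    smul_mul_assoc, smul_mul_assoc]

theorem curve (A : NonUnitalSubalgebra K R) (r c b : R) (φ : R[X])
    (lam : (A × A × A → R) →ₗ[K] K) : ∃ p : K[X],
    (∀ s : K, p.eval s = lam (bt K A r (c + s • b) (φ.eval (algebraMap K R s)))) ∧
    p.coeff 0 = lam (bt K A r c (φ.coeff 0)) ∧
    p.coeff 1 = lam (bt K A r c (φ.coeff 1) + bt K A r b (φ.coeff 0)) := by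
  obtain ⟨p1, h1, h2⟩ := pol_lin (lam ∘ₗ bt K A r c) φ
  obtain ⟨p2, h3, h4⟩ := pol_lin (lam ∘ₗ bt K A r b) φ
  refine ⟨p1 + X * p2, fun s => ?_, ?_, ?_⟩
  · rw [eval_add, eval_mul, eval_X, h1, h3, bt_add, map_add, map_smul, smul_eq_mul]
    rfl
  · rw [coeff_add, mul_coeff_zero, coeff_X_zero, zero_mul, add_zero, h2]
    rfl
  · rw [coeff_add, coeff_X_mul, h2, h4, map_add]
    rfl

theorem key [CharZero K] {A : NonUnitalSubalgebra K R} (hA : NoFin A) {y : ι → R}
    (hy : ∀ i, y i ∈ A) {x r w : R} (hx : x ∈ A) (hr : ∀ a ∈ A, a * r ∈ A) (hw : w ∈ A)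
    (𝓛 : Finset (List (Option ι))) (hne : ∀ l ∈ 𝓛, l ≠ [])
    (hyp : ∀ c ∈ A, ∃ f : List (Option ι) → K,
      ZZ A (r * c) (w - ∑ l ∈ 𝓛, f l • ev y (x * c) l)) :
    ∃ f : List (Option ι) → K, (∀ l ∈ 𝓛, none ∈ l → f l = 0) ∧
      ∀ b ∈ A, ZZ A (r * b) (w - ∑ l ∈ 𝓛, f l • ev y 0 l) := by
  classical
  -- the family
  let v : R → {l // l ∈ 𝓛} → (A × A × A → R) := fun c l => bt K A r c (ev y (x * c) l.1)
  let S : R → Submodule K (A × A × A → R) := fun c => Submodule.span K (Set.range (v c))
  have hSf : ∀ c, FiniteDimensional K (S c) := fun c =>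
    FiniteDimensional.span_of_finite K (Set.finite_range _)
  -- w is in the span
  have hwS : ∀ c ∈ A, bt K A r c w ∈ S c := by
    intro c hc
    obtain ⟨f, hf⟩ := hyp c hc
    have h1 : bt K A r c (w - ∑ l ∈ 𝓛, f l • ev y (x * c) l) = 0 := by
      funext t
      show (t.1 : R) * (r * c) * t.2.1 * _ * t.2.2 = 0
      exact hf _ t.1.2 _ t.2.1.2 _ t.2.2.2
    rw [map_sub, map_sum, sub_eq_zero] at h1
    rw [h1]
    refine Submodule.sum_mem _ (fun l hl => ?_)
    rw [map_smul]
    exact Submodule.smul_mem _ _ (Submodule.subset_span ⟨⟨l, hl⟩, rfl⟩)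
  -- a point of maximal rank
  obtain ⟨c0, hc0, hmax⟩ : ∃ c0 ∈ A, ∀ c ∈ A,
      Module.finrank K (S c) ≤ Module.finrank K (S c0) := by
    let N : Set ℕ := {n | ∃ c ∈ A, n = Module.finrank K (S c)}
    have hN1 : N.Nonempty := ⟨_, 0, A.zero_mem, rfl⟩
    have hN2 : BddAbove N := by
      refine ⟨Fintype.card {l // l ∈ 𝓛}, ?_⟩
      rintro n ⟨c, _, rfl⟩
      exact finrank_range_le_card (v c)
    obtain ⟨c0, hc0, h0⟩ := Nat.sSup_mem hN1 hN2
    refine ⟨c0, hc0, fun c hc => ?_⟩
    rw [← h0]
    exact le_csSup hN2 ⟨c, hc, rfl⟩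
  obtain ⟨κ, a, ha, hspan, hli⟩ := exists_linearIndependent' K (v c0)
  have : Finite κ := Finite.of_injective a ha
  have : Fintype κ := Fintype.ofFinite κ
  have hspan' : Submodule.span K (Set.range (v c0 ∘ a)) = S c0 := hspan
  have hrank : Module.finrank K (S c0) = Fintype.card κ := by
    rw [← hspan']
    exact finrank_span_eq_card hli
  -- coefficients
  obtain ⟨g, hg⟩ : ∃ g : κ → K, ∑ k, g k • v c0 (a k) = bt K A r c0 w := by
    have h1 := hwS c0 hc0
    rw [← hspan'] at h1
    exact (Submodule.mem_span_range_iff_exists_fun K).1 h1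
  have hz0 : x * c0 ∈ A := mul_mem hx hc0
  let F : R := ∑ k, g k • ev y (x * c0) (a k).1
  have hG0 : bt K A r c0 (w - F) = 0 := by
    rw [map_sub, ← hg, sub_eq_zero]
    show _ = bt K A r c0 (∑ k, g k • ev y (x * c0) (a k).1)
    rw [map_sum]
    refine Finset.sum_congr rfl (fun k _ => ?_)
    rw [map_smul]
  have hFA : F ∈ A := by
    refine sum_mem (fun k _ => SMulMemClass.smul_mem _ ?_)
    exact ev_mem' hy hz0 (hne _ (a k).2)
  -- the derivative
  let D : R → R := fun b => ∑ k, g k • dv y (x * c0) (x * b) (a k).1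
  have hD : ∀ b ∈ A, bt K A r b (w - F) - bt K A r c0 (D b) ∈ S c0 := by
    intro b hb
    by_contra hcon
    have hli' : LinearIndependent K (fun o : Option κ =>
        o.elim (bt K A r b (w - F) - bt K A r c0 (D b)) (v c0 ∘ a)) := by
      have h1 := hli.option (x := bt K A r b (w - F) - bt K A r c0 (D b))
        (by rw [hspan']; exact hcon)
      have h2 : (fun o : Option κ =>
        o.elim (bt K A r b (w - F) - bt K A r c0 (D b)) (v c0 ∘ a)) = (fun o : Option κ =>
        o.casesOn' (bt K A r b (w - F) - bt K A r c0 (D b)) (v c0 ∘ a)) := by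
        funext o
        rcases o with _ | k <;> rfl
      rw [h2]
      exact h1
    let φG : R[X] := C w - ∑ k, C (algebraMap K R (g k)) * pv y (x * c0) (x * b) (a k).1
    have hφ : ∀ s : K, φG.eval (algebraMap K R s) =
        w - ∑ k, g k • ev y (x * (c0 + s • b)) (a k).1 := by
      intro s
      show (C w - ∑ k, C (algebraMap K R (g k)) * pv y (x * c0) (x * b) (a k).1).eval
        (algebraMap K R s) = _
      rw [eval_sub, eval_C, eval_finsetSum]
      congr 1
      refine Finset.sum_congr rfl (fun k _ => ?_)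
      rw [eval_C_mul, eval_pv, ← Algebra.smul_def, mul_add, mul_smul_comm]
    have hφ0 : φG.coeff 0 = w - F := by
      show (C w - ∑ k, C (algebraMap K R (g k)) * pv y (x * c0) (x * b) (a k).1).coeff 0 = _
      rw [coeff_sub, coeff_C_zero, finsetSum_coeff]
      congr 1
      refine Finset.sum_congr rfl (fun k _ => ?_)
      rw [coeff_C_mul, pv_coeff_zero, ← Algebra.smul_def]
    have hφ1 : φG.coeff 1 = - D b := by
      show (C w - ∑ k, C (algebraMap K R (g k)) * pv y (x * c0) (x * b) (a k).1).coeff 1 = _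
      rw [coeff_sub, finsetSum_coeff, coeff_C_of_ne_zero (by norm_num), zero_sub]
      congr 1
      refine Finset.sum_congr rfl (fun k _ => ?_)
      rw [coeff_C_mul, pv_coeff_one, ← Algebra.smul_def]
    obtain ⟨s, hs⟩ := indep (v c0 ∘ a) (bt K A r b (w - F) - bt K A r c0 (D b)) hli'
      (fun k s => v (c0 + s • b) (a k))
      (fun s => bt K A r (c0 + s • b) (w - ∑ k, g k • ev y (x * (c0 + s • b)) (a k).1))
      (by
        intro k lam
        obtain ⟨p, h1, h2, _⟩ := curve A r c0 b (pv y (x * c0) (x * b) (a k).1) lam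
        refine ⟨p, fun s => ?_, ?_⟩
        · rw [h1, eval_pv]
          show _ = lam (bt K A r (c0 + s • b) (ev y (x * (c0 + s • b)) (a k).1))
          rw [mul_add, mul_smul_comm]
        · rw [h2, pv_coeff_zero]
          rfl)
      (by
        intro lam
        obtain ⟨p, h1, h2, h3⟩ := curve A r c0 b φG lam
        refine ⟨p, fun s => ?_, ?_, ?_⟩
        · rw [h1, hφ]
        · rw [h2, hφ0, hG0, map_zero]
        · rw [h3, hφ0, hφ1, map_neg]
          congr 1
          abel)
    have hc : c0 + s • b ∈ A := add_mem hc0 (SMulMemClass.smul_mem _ hb)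
    have h2 : Submodule.span K (Set.range (fun o : Option κ =>
        o.elim (bt K A r (c0 + s • b) (w - ∑ k, g k • ev y (x * (c0 + s • b)) (a k).1))
          (fun k => v (c0 + s • b) (a k)))) ≤ S (c0 + s • b) := by
      rw [Submodule.span_le]
      rintro _ ⟨o, rfl⟩
      rcases o with _ | k
      · show bt K A r (c0 + s • b) (w - ∑ k, g k • ev y (x * (c0 + s • b)) (a k).1) ∈ _
        rw [map_sub, map_sum]
        refine Submodule.sub_mem _ (hwS _ hc) (Submodule.sum_mem _ (fun k _ => ?_))
        rw [map_smul]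
        exact Submodule.smul_mem _ _ (Submodule.subset_span ⟨a k, rfl⟩)
      · exact Submodule.subset_span ⟨a k, rfl⟩
    have h3 := finrank_span_eq_card hs
    have h4 := Submodule.finrank_mono h2
    have h5 := hmax _ hc
    rw [h3, Fintype.card_option] at h4
    omega
  -- the operators vanish
  have hD0 : ∀ b ∈ A, bt K A r b (w - F) - bt K A r c0 (D b) = 0 := by
    intro b hb
    funext t
    have hT : EO A (fun b => (t.1 : R) * (r * b) * t.2.1 * (w - F) * t.2.2 +
        ∑ k ∈ (Finset.univ : Finset κ), (-g k) • (((t.1 : R) * (r * c0) * t.2.1) *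
          dv y (x * c0) (x * b) (a k).1 * t.2.2)) := by
      refine EO.add ?_ (EO.sum _ _ (fun k _ => EO.smul ?_ _))
      · have h1 : EO A (fun b => ((t.1 : R) * r) * b * (t.2.1 * (w - F) * t.2.2)) :=
          EO.single (hr _ t.1.2) (mul_mem (mul_mem t.2.1.2 (sub_mem hw hFA)) t.2.2.2)
        have e : (fun b => (t.1 : R) * (r * b) * t.2.1 * (w - F) * t.2.2) =
            fun b => ((t.1 : R) * r) * b * (t.2.1 * (w - F) * t.2.2) := by
          funext b
          simp only [mul_assoc]
        rw [e]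
        exact h1
      · refine EO.dv hy hx hz0 t.2.2.2 _ _ ?_
        rw [← mul_assoc]
        exact mul_mem (mul_mem (hr _ t.1.2) hc0) t.2.1.2
    have e : ∀ b, (t.1 : R) * (r * b) * t.2.1 * (w - F) * t.2.2 +
        ∑ k ∈ (Finset.univ : Finset κ), (-g k) • (((t.1 : R) * (r * c0) * t.2.1) *
          dv y (x * c0) (x * b) (a k).1 * t.2.2) =
        (bt K A r b (w - F) - bt K A r c0 (D b)) t := by
      intro b
      show _ = (t.1 : R) * (r * b) * t.2.1 * (w - F) * t.2.2 - (t.1 : R) * (r * c0) * t.2.1 *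
        (∑ k, g k • dv y (x * c0) (x * b) (a k).1) * t.2.2
      have e2 : ∑ k ∈ (Finset.univ : Finset κ), (-g k) • (((t.1 : R) * (r * c0) * t.2.1) *
          dv y (x * c0) (x * b) (a k).1 * t.2.2) = -((t.1 : R) * (r * c0) * t.2.1 *
        (∑ k, g k • dv y (x * c0) (x * b) (a k).1) * t.2.2) := by
        rw [Finset.mul_sum, Finset.sum_mul, ← Finset.sum_neg_distrib]
        refine Finset.sum_congr rfl (fun k _ => ?_)
        rw [neg_smul, mul_smul_comm, smul_mul_assoc]
      rw [e2, ← sub_eq_add_neg]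
    have := EO.noFin hA hT ((S c0).map (LinearMap.proj t)) inferInstance (fun b hb => by
      rw [e]
      exact Submodule.mem_map_of_mem (f := (LinearMap.proj t : (A × A × A → R) →ₗ[K] R))
        (hD b hb)) b hb
    rw [e] at this
    exact this
  -- the Euler relation
  have hgz : ∀ k, none ∈ (a k).1 → g k = 0 := by
    have h1 := hD0 c0 hc0
    rw [hG0, zero_sub, neg_eq_zero] at h1
    have h2 : D c0 = ∑ k, (g k * (((a k).1.filter (fun o => o.isNone)).length : K)) •
        ev y (x * c0) (a k).1 := by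
      refine Finset.sum_congr rfl (fun k _ => ?_)
      rw [dv_self (K := K), smul_smul]
    rw [h2, map_sum] at h1
    have h3 : ∑ k, (g k * (((a k).1.filter (fun o => o.isNone)).length : K)) •
        (v c0 ∘ a) k = 0 := by
      rw [← h1]
      refine Finset.sum_congr rfl (fun k _ => ?_)
      rw [map_smul]
      rfl
    have h4 := Fintype.linearIndependent_iff.1 hli _ h3
    intro k hk
    rcases mul_eq_zero.1 (h4 k) with h | h
    · exact h
    · exfalso
      have h5 : ((a k).1.filter (fun o => o.isNone)).length = 0 := by exact_mod_cast h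
      have h6 : none ∈ (a k).1.filter (fun o => o.isNone) := List.mem_filter.2 ⟨hk, rfl⟩
      rw [List.length_eq_zero_iff.1 h5] at h6
      exact absurd h6 List.not_mem_nil
  refine ⟨fun l => ∑ k, if (a k).1 = l then g k else 0, ?_, ?_⟩
  · intro l _ hl
    refine Finset.sum_eq_zero (fun k _ => ?_)
    split_ifs with h
    · exact hgz k (h ▸ hl)
    · rfl
  · intro b hb
    have e1 : ∑ l ∈ 𝓛, (∑ k, if (a k).1 = l then g k else 0) • ev y 0 l = F := by
      simp only [Finset.sum_smul]
      rw [Finset.sum_comm]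
      refine Finset.sum_congr rfl (fun k _ => ?_)
      rw [Finset.sum_eq_single (a k).1]
      · rw [if_pos rfl]
        by_cases hk : none ∈ (a k).1
        · rw [hgz k hk, zero_smul, zero_smul]
        · rw [ev_none y 0 (x * c0) _ hk]
      · intro l _ hl
        rw [if_neg (fun h => hl h.symm), zero_smul]
      · intro h
        exact absurd (a k).2 h
    rw [e1]
    have hDb : D b = 0 := by
      refine Finset.sum_eq_zero (fun k _ => ?_)
      by_cases hk : none ∈ (a k).1
      · rw [hgz k hk, zero_smul]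
      · rw [dv_none _ _ _ _ hk, smul_zero]
    have h1 := hD0 b hb
    rw [hDb, map_zero, sub_zero] at h1
    intro p hp q hq d hd
    exact congrFun h1 (⟨p, hp⟩, ⟨q, hq⟩, ⟨d, hd⟩)

end main

theorem s_KEY : S_KEY := by
  intro K R _ _ _ _ A hA ι y hy x r w hx hr hw 𝓛 hne hyp
  exact key hA hy hx hr hw 𝓛 hne hyp

end Pool.Agent.Helper27.NF
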