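import Mathlib

/-!
MP_3938c6_al. `A` is a (not necessarily unital) subalgebra of a unital `K`-algebra `R` (later
`R = Unitization K C`).
-/

set_option autoImplicit false
set_option linter.unusedVariables false

namespace Pool.Agent.Helper27.NF

/-- The value of a word with the letters `none ↦ z` and `some i ↦ y i`. -/
def ev {R ι : Type} [Ring R] (y : ι → R) (z : R) (l : List (Option ι)) : R :=
  (l.map (fun o => o.elim z y)).prod

/-- An operator `b ↦ ∑ p i * b * q i` (`p i, q i ∈ A`) of finite rank on `A` vanishes on `A`. -/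
def NoFin {K R : Type} [Field K] [Ring R] [Algebra K R] (A : NonUnitalSubalgebra K R) : Prop :=
  ∀ (n : ℕ) (p q : Fin n → R), (∀ i, p i ∈ A ∧ q i ∈ A) →
    (∃ S : Submodule K R, FiniteDimensional K S ∧ ∀ b ∈ A, ∑ i, p i * b * q i ∈ S) →
    ∀ b ∈ A, ∑ i, p i * b * q i = 0

/-- `A r A h A = 0`. -/
def ZZ {K R : Type} [Field K] [Ring R] [Algebra K R] (A : NonUnitalSubalgebra K R) (r h : R) :
    Prop := ∀ a ∈ A, ∀ b ∈ A, ∀ c ∈ A, a * r * b * h * c = 0

/-- `A = A ^ 2`, all proper subalgebras are nilpotent, `A` is not commutative. -/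
structure Minl {K R : Type} [Field K] [Ring R] [Algebra K R] (A : NonUnitalSubalgebra K R) :
    Prop where
  sq : ∀ a ∈ A, a ∈ Submodule.span K {z : R | ∃ u ∈ A, ∃ v ∈ A, z = u * v}
  nil : ∀ B : NonUnitalSubalgebra K R, B ≤ A → B ≠ A →
    ∃ n : ℕ, ∀ l : List R, (∀ x ∈ l, x ∈ B) → l.length = n → l.prod = 0
  nc : ∃ a ∈ A, ∃ b ∈ A, a * b ≠ b * a

/-- The key step (helper27). -/
def S_KEY : Prop := ∀ (K R : Type) [Field K] [CharZero K] [Ring R] [Algebra K R]
  (A : NonUnitalSubalgebra K R), NoFin A →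
  ∀ (ι : Type) (y : ι → R), (∀ i, y i ∈ A) → ∀ (x r w : R), x ∈ A → (∀ a ∈ A, a * r ∈ A) →
  w ∈ A → ∀ (𝓛 : Finset (List (Option ι))), (∀ l ∈ 𝓛, l ≠ []) →
  (∀ c ∈ A, ∃ f : List (Option ι) → K, ZZ A (r * c) (w - ∑ l ∈ 𝓛, f l • ev y (x * c) l)) →
  ∃ f : List (Option ι) → K, (∀ l ∈ 𝓛, none ∈ l → f l = 0) ∧
    ∀ b ∈ A, ZZ A (r * b) (w - ∑ l ∈ 𝓛, f l • ev y 0 l)

/-- Finitely generated ideals are nilpotent: there is `m` such that all products of `m` factors of
the form `x` or `x * c` with `x ∈ s`, `c ∈ A` vanish.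

Proof. Call an ideal of `A` (subspace `V ≤ A` with `A V, V A ≤ V`) nilpotent if `V ^ n = 0`. The sum
of two nilpotent ideals is nilpotent (library: `Pool.Graph.R_pool_sql_team_seeded_b677cdb8
.E8helper9.NL.Rel`, `IsId`, `nil_sup`, `exists_nilMod_fg` with `J = ⊥`), so
`N = {s : s is in a nilpotent ideal}` is an ideal of `A` and it suffices that `N = A`. Suppose
`t ∈ A \ N`. The left ideal `L = K t + A t` is a subalgebra; if `L ≠ A`, then `L ^ n = 0`, and
`L + L A` is an ideal with `(L + L A) ^ n = 0` (as `A L ≤ L`), so `t ∈ N`. So `K t + A t = A` for all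
`t ∉ N`. If `A t ≤ N`, then `A = K t + N`, `t t ∈ N`, so `A = A A ≤ N`. So some `c t ∉ N`, and
`A = K c t + A c t ≤ A t`: for all `t ∉ N`, `A t = A`. So there is `e ∈ A` with `e t = t`, `e ∉ N`.
If `z t ∈ N` and `z ∉ N`, then `A = A t = (A z) t ≤ N`, a contradiction. With `z = u e - u`
(`z t = 0`): `u e - u ∈ N` for all `u ∈ A`; so all powers of `e` are `e` modulo `N`, in particular
not zero, the subalgebra generated by `e` is not nilpotent, so it is `A`, and `A` is commutative,
against `nc`. -/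
def S_FG : Prop := ∀ (K R : Type) [Field K] [Ring R] [Algebra K R]
  (A : NonUnitalSubalgebra K R), Minl A → ∀ s : Finset R, (∀ x ∈ s, x ∈ A) →
  ∃ m : ℕ, ∀ l : List R, (∀ t ∈ l, ∃ x ∈ s, t = x ∨ ∃ c ∈ A, t = x * c) → l.length = m →
    l.prod = 0

/-- The invariant. -/
def Inv {K R : Type} [Field K] [Ring R] [Algebra K R] (A : NonUnitalSubalgebra K R) (w : R)
    (L : List R) : Prop := (∀ y ∈ L, y ∈ A) ∧
  ∀ v ∈ NonUnitalAlgebra.adjoin K {y : R | y ∈ L}, ¬ ZZ A L.prod (w - v)

/-- One step. Proof. Let `ι = Fin L.length`, `y = L.get`. (a) There is `x ∈ A` such that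
`¬ ZZ A (L.prod * x) (w - v)` for all `v` in `V = adjoin L`: otherwise use `S_KEY` with `r = L.prod`,
any `x` (for instance `0`), `𝓛` the nonempty words of length `< m` without the letter `none`, `m` from
`S_FG` for `s = L.toFinset` (these words span `V`, so for all `c` there is `f`); its result gives
`v ∈ V` with `A L.prod b A (w - v) A = 0` for all `b ∈ A`, and by `A = A ^ 2` (`b` and the middle `A`)
`ZZ A L.prod (w - v)`, a contradiction. (b) For this `x` there is `c ∈ A` with `Inv A w (L ++ [x * c])`: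
otherwise for all `c` there is `v` in `adjoin (L, x * c)` with `ZZ A (L.prod * x * c) (w - v)`; `v` is a
combination of the nonempty words of length `< m` in `y` and `x * c` (`m` from `S_FG` for
`insert x L.toFinset`, the same for all `c`); use `S_KEY` with `r = L.prod * x`; its result gives
`v ∈ V` with `ZZ A (L.prod * x * b) (w - v)` for all `b ∈ A`, so again `ZZ A (L.prod * x) (w - v)`. -/
def S_STEP : Prop := ∀ (K R : Type) [Field K] [CharZero K] [Ring R] [Algebra K R]
  (A : NonUnitalSubalgebra K R), NoFin A → Minl A → ∀ w ∈ A, ∀ L : List R, Inv A w L →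
  ∃ y : R, Inv A w (L ++ [y])

/-- The sequence: iterate the step, `B` = the subalgebra generated by all `y`; `w ∉ B` (an element of
`B` is in the subalgebra generated by finitely many `y`, and `ZZ A r 0`), so `B ≠ A`, so `B` is
nilpotent, and `L.prod = 0` for a long `L`, but `ZZ A 0 (w - 0)`. -/
def S_SEQ : Prop := ∀ (K R : Type) [Field K] [Ring R] [Algebra K R]
  (A : NonUnitalSubalgebra K R), Minl A → ∀ w ∈ A, Inv A w [] →
  (∀ L : List R, Inv A w L → ∃ y : R, Inv A w (L ++ [y])) → False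

/-- Consequence of `S_STEP`, `S_SEQ` (helper27). -/
def S_FALSE : Prop := ∀ (K R : Type) [Field K] [CharZero K] [Ring R] [Algebra K R]
  (A : NonUnitalSubalgebra K R), NoFin A → Minl A → ∀ w ∈ A, Inv A w [] → False

/-- The statement for an algebra `A` and a homomorphic image `C` (from `S_FALSE`). Use
`Pool.Graph.R_seed8.H546R4.Image` (`image_thm` for commutative images, `nilp_of_sq`, `sq_ne`,
`map_foldl'`), `R = Unitization K C` and the range of `C` in it. If `A` is not nilpotent, then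
`Minl`: `sq` by `nilp_of_sq` for the preimage of `C ^ 2`; `nil` from `hprop` (preimages), `nc` from
`image_thm`. Some `w` has `Inv A w []`, that is `¬ ZZ A 1 w`, as `C = C ^ 2 = C ^ 4 ≠ 0`. -/
def S_END : Prop := ∀ (K A C : Type) [Field K] [CharZero K]
  [NonUnitalRing A] [Module K A] [IsScalarTower K A A] [SMulCommClass K A A]
  [NonUnitalRing C] [Module K C] [IsScalarTower K C C] [SMulCommClass K C C] [Nontrivial C],
  1 < Module.rank K A →
  (∀ B : NonUnitalSubalgebra K A, B ≠ ⊤ →
    ∃ n : ℕ, ∀ a ∈ B, ∀ l : List A, (∀ x ∈ l, x ∈ B) → l.length = n →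
      l.foldl (fun x y => x * y) a = 0) →
  ∀ (f : A →ₙₐ[K] C), Function.Surjective f →
  (∀ (n : ℕ) (p q : Fin n → C),
    (∃ S : Submodule K C, FiniteDimensional K S ∧ ∀ b : C, ∑ i, p i * b * q i ∈ S) →
    ∀ b : C, ∑ i, p i * b * q i = 0) →
  ∃ n : ℕ, ∀ a : A, ∀ l : List A, l.length = n → l.foldl (fun x y => x * y) a = 0

end Pool.Agent.Helper27.NF
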